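import Pool.Agent.J4H50.TF.A
import Pool.Agent.J4H50.IG.Bs

set_option autoImplicit false
set_option linter.unusedSectionVars false
set_option linter.unusedVariables false

/-! # Functional equations at one number: from jets to power series -/

namespace Pool.Agent.J4H50.TW

open Pool.Agent.J4H50.NI Pool.Agent.J4H50.IG Pool.Agent.J4H50.TF

variable {σ : Type} [Finite σ]

/-- the ideal of the origin -/
noncomputable def mF (σ : Type) [Finite σ] : Ideal (MvPowerSeries σ ℂ) :=
  Ideal.span (Set.range (MvPowerSeries.X : σ → MvPowerSeries σ ℂ))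

theorem mF_cc {f : MvPowerSeries σ ℂ} (h : f ∈ mF σ) : MvPowerSeries.constantCoeff f = 0 := by
  unfold mF at h
  have h1 : Ideal.span (Set.range (MvPowerSeries.X : σ → MvPowerSeries σ ℂ)) ≤
      RingHom.ker (MvPowerSeries.constantCoeff (σ := σ) (R := ℂ)) := by
    rw [Ideal.span_le]
    rintro _ ⟨s, rfl⟩
    exact MvPowerSeries.constantCoeff_X s
  exact h1 h

/-- a power series without terms of degree `< n` is in the `n`-th power of the ideal of the
variables -/
theorem tail_mem (n : ℕ) (f : MvPowerSeries σ ℂ)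
    (hf : ∀ e : σ →₀ ℕ, e.degree < n → MvPowerSeries.coeff e f = 0) : f ∈ mF σ ^ n := by
  unfold mF
  set P := MvPolynomial σ ℂ with hP
  set I := MvPolynomial.idealOfVars σ ℂ with hI
  have htr : MvPowerSeries.truncTotal n f = 0 := by
    ext e
    rw [MvPowerSeries.coeff_truncTotal_eq_ite, MvPolynomial.coeff_zero]
    split_ifs with h
    · exact hf e h
    · rfl
  have h1 : MvPowerSeries.toAdicCompletionAlgEquiv σ ℂ f ∈
      (I ^ n • ⊤ : Submodule P (AdicCompletion I P)) := by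
    rw [AdicCompletion.pow_smul_top_eq_ker_eval (MvPolynomial.idealOfVars_fg σ ℂ),
      LinearMap.mem_ker]
    change (MvPowerSeries.toAdicCompletion σ ℂ f).val n = 0
    rw [MvPowerSeries.toAdicCompletion_apply_eq_mk_truncTotal, htr]
    exact map_zero _
  have h2 : f ∈ (I ^ n • ⊤ : Submodule P (MvPowerSeries σ ℂ)) := by
    have h3 := Submodule.mem_map_of_mem
      (f := (MvPowerSeries.toAdicCompletionAlgEquiv σ ℂ).symm.toLinearEquiv.toLinearMap) h1
    rw [Submodule.map_smul''] at h3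
    have h4 : (MvPowerSeries.toAdicCompletionAlgEquiv σ ℂ).symm.toLinearEquiv.toLinearMap
        (MvPowerSeries.toAdicCompletionAlgEquiv σ ℂ f) = f := by
      change (MvPowerSeries.toAdicCompletionAlgEquiv σ ℂ).symm
        (MvPowerSeries.toAdicCompletionAlgEquiv σ ℂ f) = f
      exact AlgEquiv.symm_apply_apply _ _
    rw [h4] at h3
    exact (Submodule.smul_mono (le_refl _) le_top) h3
  refine Submodule.smul_induction_on h2 (fun r hr t _ => ?_) (fun x y hx hy => add_mem hx hy)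
  rw [Algebra.smul_def]
  apply Ideal.mul_mem_right
  have h5 : Ideal.map (algebraMap P (MvPowerSeries σ ℂ)) I ≤
      Ideal.span (Set.range (MvPowerSeries.X : σ → MvPowerSeries σ ℂ)) := by
    rw [hI, MvPolynomial.idealOfVars, Ideal.map_span, Ideal.span_le]
    rintro _ ⟨_, ⟨s, rfl⟩, rfl⟩
    apply Ideal.subset_span
    refine ⟨s, ?_⟩
    exact (MvPolynomial.coe_X s).symm
  have h6 : algebraMap P (MvPowerSeries σ ℂ) r ∈
      (Ideal.map (algebraMap P (MvPowerSeries σ ℂ)) I) ^ n := by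
    rw [← Ideal.map_pow]
    exact Ideal.mem_map_of_mem _ hr
  exact Ideal.pow_right_mono h5 n h6

theorem coe_mem {n : ℕ} {P : MvPolynomial σ ℂ} (h : P ∈ mI σ ℂ ^ n) :
    (P : MvPowerSeries σ ℂ) ∈ mF σ ^ n :=
  tail_mem n _ fun e he => by
    rw [MvPolynomial.coeff_coe]
    exact mem_iff0.1 h e he

theorem tr_mem (n : ℕ) (f : MvPowerSeries σ ℂ) :
    (tr n f : MvPowerSeries σ ℂ) - f ∈ mF σ ^ n :=
  tail_mem n _ fun e he => by
    rw [map_sub, MvPolynomial.coeff_coe, coeff_tr _ he, sub_self]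

theorem mF_le {m n : ℕ} (h : m ≤ n) : mF σ ^ n ≤ mF σ ^ m := Ideal.pow_le_pow_right h

theorem pd_mem (i : σ) (n : ℕ) {q : MvPowerSeries σ ℂ} (hq : q ∈ mF σ ^ (n + 1)) :
    MvPowerSeries.pderiv ℂ i q ∈ mF σ ^ n := by
  induction n generalizing q with
  | zero => simp
  | succ n ih =>
    rw [pow_succ] at hq
    refine Submodule.mul_induction_on hq (fun a ha b hb => ?_) (fun a b ha hb => ?_)
    · rw [Derivation.leibniz, smul_eq_mul, smul_eq_mul]
      refine Ideal.add_mem _ (Ideal.mul_mem_right _ _ ha) ?_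
      rw [pow_succ, mul_comm (mF σ ^ n)]
      exact Ideal.mul_mem_mul hb (ih ha)
    · rw [map_add]
      exact Ideal.add_mem _ ha hb

theorem pd_coe (i : σ) (P : MvPolynomial σ ℂ) :
    MvPowerSeries.pderiv ℂ i (P : MvPowerSeries σ ℂ) = (MvPolynomial.pderiv i P :
      MvPolynomial σ ℂ) := by
  ext x
  rw [MvPowerSeries.coeff_pderiv, MvPolynomial.coeff_coe, MvPolynomial.coeff_coe,
    MvPolynomial.coeff_pderiv]

/-- the ideals of polynomials -/
theorem coe_KI (s : ℂ) (F : MvPolynomial σ ℂ) (k : ℕ) :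
    ∀ q ∈ KI s F k, (q : MvPowerSeries σ ℂ) ∈ KF s (F : MvPowerSeries σ ℂ) k := by
  refine KI_ind s (fun k (q : MvPolynomial σ ℂ) => (q : MvPowerSeries σ ℂ) ∈
    KF s (F : MvPowerSeries σ ℂ) k)
    ?_ ?_ (fun i => ?_) (fun k a b ha hb => ?_) (fun k a q hq => ?_) (fun k q _ hq => ?_)
    (fun k i q _ hq => ?_) k
  · rw [MvPolynomial.coe_zero]
    exact Ideal.zero_mem _
  · exact KF_f s _
  · rw [← pd_coe]
    exact Ideal.subset_span (Or.inr ⟨i, rfl⟩)
  · rw [MvPolynomial.coe_add]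
    exact Ideal.add_mem _ ha hb
  · rw [MvPolynomial.coe_mul]
    exact Ideal.mul_mem_left _ _ hq
  · rw [MvPolynomial.coe_mul]
    exact KF_mul hq
  · have h1 := KF_SF i hq
    have e : ((SS s F k i q : MvPolynomial σ ℂ) : MvPowerSeries σ ℂ) =
        SF s (F : MvPowerSeries σ ℂ) k i (q : MvPowerSeries σ ℂ) := by
      unfold SS SF
      rw [MvPolynomial.coe_add, MvPolynomial.coe_mul, MvPolynomial.coe_mul, MvPolynomial.coe_mul,
        pd_coe, pd_coe, MvPowerSeries.smul_eq_C_mul, MvPolynomial.coe_C, mul_assoc]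
    rw [e]
    exact h1

/-- approximations -/
theorem KF_approx (s : ℂ) {F G : MvPowerSeries σ ℂ} {n : ℕ} (h : G - F ∈ mF σ ^ n) (k : ℕ)
    (hk : k + 1 ≤ n) (q : MvPowerSeries σ ℂ) (hq : q ∈ KF s G k) :
    q ∈ KF s F k ⊔ mF σ ^ (n - (k + 1)) := by
  refine KF_ind s (fun k q => k + 1 ≤ n → q ∈ KF s F k ⊔ mF σ ^ (n - (k + 1)))
    (fun _ => Ideal.zero_mem _) (fun _ => ?_) (fun i _ => ?_)
    (fun k a b ha hb hk => Ideal.add_mem _ (ha hk) (hb hk))
    (fun k a q hq hk => Ideal.mul_mem_left _ _ (hq hk))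
    (fun k q _ hq hk => ?_) (fun k i q _ hq hk => ?_) k q hq hk
  · have e1 : G = F + (G - F) := by ring
    rw [e1]
    exact Submodule.add_mem_sup (KF_f s F) (mF_le (by omega) h)
  · have e1 : MvPowerSeries.pderiv ℂ i G = MvPowerSeries.pderiv ℂ i F +
        MvPowerSeries.pderiv ℂ i (G - F) := by
      rw [map_sub]
      ring
    rw [e1]
    refine Submodule.add_mem_sup (Ideal.subset_span (Or.inr ⟨i, rfl⟩)) ?_
    refine mF_le (Nat.le_refl _) (pd_mem i (n - (0 + 1)) ?_)
    rwa [Nat.sub_add_cancel (by omega)]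
  · obtain ⟨u, hu, v, hv, rfl⟩ := Submodule.mem_sup.1 (hq (by omega))
    have e1 : G * (u + v) = F * u + ((G - F) * u + G * v) := by ring
    rw [e1]
    refine Submodule.add_mem_sup (KF_mul hu) (Ideal.add_mem _ ?_ ?_)
    · exact Ideal.mul_mem_right _ _ (mF_le (by omega) h)
    · exact Ideal.mul_mem_left _ _ (mF_le (by omega) hv)
  · obtain ⟨u, hu, v, hv, rfl⟩ := Submodule.mem_sup.1 (hq (by omega))
    have e1 : SF s G k i (u + v) = SF s F k i u + ((G - F) * MvPowerSeries.pderiv ℂ i u +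
        (s - (k : ℂ)) • (MvPowerSeries.pderiv ℂ i (G - F) * u) + SF s G k i v) := by
      unfold SF
      rw [Derivation.map_add, Derivation.map_sub]
      simp only [MvPowerSeries.smul_eq_C_mul]
      ring
    have h1 := pd_mem i (n - 1) (q := G - F) (by
      rwa [Nat.sub_add_cancel (by omega)])
    have h2 := pd_mem i (n - (k + 1 + 1)) (q := v) (by
      have : n - (k + 1 + 1) + 1 = n - (k + 1) := by omega
      rwa [this])
    rw [e1]
    refine Submodule.add_mem_sup (KF_SF i hu) (Ideal.add_mem _ (Ideal.add_mem _ ?_ ?_) ?_)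
    · exact Ideal.mul_mem_right _ _ (mF_le (by omega) h)
    · rw [MvPowerSeries.smul_eq_C_mul]
      exact Ideal.mul_mem_left _ _ (Ideal.mul_mem_right _ _ (mF_le (by omega) h1))
    · unfold SF
      rw [MvPowerSeries.smul_eq_C_mul]
      refine Ideal.add_mem _ (Ideal.mul_mem_left _ _ h2) (Ideal.mul_mem_left _ _
        (Ideal.mul_mem_left _ _ ?_))
      exact mF_le (by omega) hv

/-- **The functional equation at one number.** -/
theorem KF_of_FEv {f : MvPowerSeries σ ℂ} {s : ℂ} (h : FEv f s) : ∃ k, f ^ k ∈ KF s f k := by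
  obtain ⟨k, hk⟩ := h
  refine ⟨k, ?_⟩
  have key : ∀ n : ℕ, f ^ k ∈ KF s f k ⊔ mF σ ^ n := by
    intro n
    set N := n + k + 1 with hN
    obtain ⟨u, hu, v, hv, huv⟩ := Submodule.mem_sup.1 (hk n)
    have h1 := KF_approx s (tr_mem N f) k (by omega) _ (coe_KI s _ k u hu)
    have e0 : N - (k + 1) = n := by omega
    rw [e0] at h1
    have h2 : (tr N f : MvPowerSeries σ ℂ) ^ k - f ^ k ∈ mF σ ^ n :=
      mF_le (by omega) (Ideal.mem_of_dvd _ (sub_dvd_pow_sub_pow _ _ k) (tr_mem N f))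
    have e : f ^ k = (u : MvPowerSeries σ ℂ) + ((v : MvPowerSeries σ ℂ) -
        ((tr N f : MvPowerSeries σ ℂ) ^ k - f ^ k)) := by
      rw [← MvPolynomial.coe_pow, ← huv, MvPolynomial.coe_add]
      ring
    rw [e]
    exact Ideal.add_mem _ h1 (Submodule.mem_sup_right (Ideal.sub_mem _ (coe_mem hv) h2))
  obtain ⟨r, hr, h1⟩ := krull _ (mF σ) _ key
  have h2 : IsUnit (1 - r) := by
    rw [MvPowerSeries.isUnit_iff_constantCoeff, map_sub, map_one, mF_cc hr, sub_zero]
    exact isUnit_one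
  obtain ⟨⟨w, w', hw, hw'⟩, hww⟩ := h2
  have h3 := Ideal.mul_mem_left _ w' h1
  rw [← hww, ← mul_assoc, show w' * w = 1 from hw', one_mul] at h3
  exact h3

end Pool.Agent.J4H50.TW
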