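import Pool.Agent.J4H50.TW.A
import Pool.Agent.Y229.PS.Red

set_option autoImplicit false
set_option linter.unusedSectionVars false
set_option linter.unusedVariables false

/-! # From functional equations at the numbers `s₀ - i` to a functional equation with a parameter -/

namespace Pool.Agent.J4H50.TW

open Pool.Agent.J4H50.NI Pool.Agent.J4H50.IG Pool.Agent.J4H50.TF
open Pool.Agent.Y229.PS (DD IsFormalBFunction WW CC B1 B2 pl pl_mem dc dc_eval poly_ext eval_map
  reduced unreduced formal_iff)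
open Polynomial

variable {n : ℕ} {f : MvPowerSeries (Fin n) ℂ}

/-- the base of `D[s] f ^ s` -/
noncomputable def B0 (f : MvPowerSeries (Fin n) ℂ) : Unit → ℕ → MvPowerSeries (Fin n) ℂ :=
  fun _ s => f ^ s

theorem dc_evalC (i : Fin n) (p : Polynomial (MvPowerSeries (Fin n) ℂ)) (α : ℂ) :
    (dc i p).eval (MvPowerSeries.C α) =
      MvPowerSeries.pderiv ℂ i (p.eval (MvPowerSeries.C α)) := by
  unfold dc
  rw [Polynomial.eval_eq_sum (p := p), Polynomial.sum_def, Polynomial.sum_def, map_sum,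
    Polynomial.eval_finsetSum]
  refine Finset.sum_congr rfl fun m _ => ?_
  rw [Polynomial.eval_monomial, Derivation.leibniz, ← map_pow, MvPowerSeries.pderiv_C,
    smul_zero, zero_add, smul_eq_mul, mul_comm]

section Ops

variable {ι : Type} {B : ι → ℕ → MvPowerSeries (Fin n) ℂ} {F : ℕ → MvPowerSeries (Fin n) ℂ}

theorem polyS (hF : WW B F) (c : ℂ[X]) : WW B (fun s => c.eval (s : ℂ) • F s) := by
  induction c using Polynomial.induction_on' with
  | add p q hp hq =>
    have h1 := hp.add hq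
    convert h1 using 2 with s
    rw [Polynomial.eval_add, add_smul]
  | monomial m a =>
    have key : ∀ m : ℕ, WW B (fun s => ((s : ℂ) ^ m) • F s) := by
      intro m
      induction m with
      | zero => simpa using hF
      | succ m ih =>
        convert ih.smulS using 2 with s
        rw [smul_smul, pow_succ, mul_comm]
    convert (key m).smulC a using 2 with s
    rw [Polynomial.eval_monomial, smul_smul]

theorem polyM (hF : WW B F) (p : Polynomial (MvPowerSeries (Fin n) ℂ)) :
    WW B (fun s => p.eval (s : MvPowerSeries (Fin n) ℂ) * F s) := by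
  induction p using Polynomial.induction_on' with
  | add p q hp hq =>
    have h1 := hp.add hq
    convert h1 using 2 with s
    rw [Polynomial.eval_add, add_mul]
  | monomial m a =>
    convert (polyS hF (Polynomial.X ^ m)).mulL a using 2 with s
    rw [Polynomial.eval_monomial, Polynomial.eval_pow, Polynomial.eval_X,
      MvPowerSeries.smul_eq_C_mul, map_pow, map_natCast]
    ring

end Ops

/-- lifting of the elements of the ideals -/
theorem lift_KF (α : ℂ) (k : ℕ) : ∀ q ∈ KF α f k,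
    ∃ (p : Polynomial (MvPowerSeries (Fin n) ℂ)) (F : ℕ → MvPowerSeries (Fin n) ℂ),
      p.eval (MvPowerSeries.C α) = q ∧ WW (B2 f) F ∧
        ∀ s : ℕ, f ^ k * F s = f ^ s * p.eval (s : MvPowerSeries (Fin n) ℂ) := by
  refine KF_ind α (fun k q => ∃ (p : Polynomial (MvPowerSeries (Fin n) ℂ))
    (F : ℕ → MvPowerSeries (Fin n) ℂ), p.eval (MvPowerSeries.C α) = q ∧ WW (B2 f) F ∧
      ∀ s : ℕ, f ^ k * F s = f ^ s * p.eval (s : MvPowerSeries (Fin n) ℂ))
    ?_ ?_ (fun i => ?_) (fun k a b ha hb => ?_) (fun k a q hq => ?_) (fun k q _ hq => ?_)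
    (fun k i q _ hq => ?_) k
  · exact ⟨0, fun _ => 0, Polynomial.eval_zero, WW.zero, fun s => by
      rw [Polynomial.eval_zero, mul_zero, mul_zero]⟩
  · refine ⟨Polynomial.C f, _, Polynomial.eval_C, WW.base (B := B2 f) none, fun s => ?_⟩
    rw [Polynomial.eval_C, pow_zero, one_mul]
    exact pow_succ f s
  · refine ⟨Polynomial.C (MvPowerSeries.pderiv ℂ i f), _, Polynomial.eval_C,
      WW.base (B := B2 f) (some i), fun s => ?_⟩
    rw [Polynomial.eval_C, pow_zero, one_mul, mul_comm]
    rfl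
  · obtain ⟨p, F, h1, h2, h3⟩ := ha
    obtain ⟨p', F', h1', h2', h3'⟩ := hb
    refine ⟨p + p', _, by rw [Polynomial.eval_add, h1, h1'], h2.add h2', fun s => ?_⟩
    rw [Polynomial.eval_add, mul_add, mul_add, h3, h3']
  · obtain ⟨p, F, h1, h2, h3⟩ := hq
    refine ⟨Polynomial.C a * p, _, by rw [Polynomial.eval_mul, Polynomial.eval_C, h1], h2.mulL a,
      fun s => ?_⟩
    rw [Polynomial.eval_mul, Polynomial.eval_C]
    linear_combination a * h3 s
  · obtain ⟨p, F, h1, h2, h3⟩ := hq
    refine ⟨Polynomial.C f * p, F, by rw [Polynomial.eval_mul, Polynomial.eval_C, h1], h2,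
      fun s => ?_⟩
    rw [Polynomial.eval_mul, Polynomial.eval_C, pow_succ]
    linear_combination f * h3 s
  · obtain ⟨p, F, h1, h2, h3⟩ := hq
    refine ⟨Polynomial.C f * dc i p + Polynomial.C (MvPowerSeries.pderiv ℂ i f) * (Polynomial.X -
      Polynomial.C (k : MvPowerSeries (Fin n) ℂ)) * p, _, ?_, h2.op _ (pl_mem i), fun s => ?_⟩
    · rw [Polynomial.eval_add, Polynomial.eval_mul, Polynomial.eval_mul, Polynomial.eval_mul,
        Polynomial.eval_C, Polynomial.eval_C, Polynomial.eval_sub, Polynomial.eval_X,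
        Polynomial.eval_C, dc_evalC, h1]
      unfold SF
      rw [MvPowerSeries.smul_eq_C_mul, map_sub, map_natCast]
      ring
    · have h4 := congrArg (MvPowerSeries.pderiv ℂ i) (h3 s)
      rw [Derivation.leibniz, Derivation.leibniz, Derivation.leibniz_pow, Derivation.leibniz_pow,
        ← dc_eval] at h4
      simp only [smul_eq_mul, nsmul_eq_mul] at h4
      rw [Polynomial.eval_add, Polynomial.eval_mul, Polynomial.eval_mul, Polynomial.eval_mul,
        Polynomial.eval_C, Polynomial.eval_C, Polynomial.eval_sub, Polynomial.eval_X,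
        Polynomial.eval_C]
      have h5 : ∀ (m : ℕ) (w : MvPowerSeries (Fin n) ℂ), f * ((m : MvPowerSeries (Fin n) ℂ) *
          (f ^ (m - 1) * w)) = (m : MvPowerSeries (Fin n) ℂ) * (f ^ m * w) := by
        intro m w
        cases m with
        | zero => simp
        | succ m => rw [Nat.add_sub_cancel, pow_succ]; ring
      have h6 := h5 k (MvPowerSeries.pderiv ℂ i f)
      have h7 := h5 s (MvPowerSeries.pderiv ℂ i f)
      have h8 := h3 s
      show f ^ (k + 1) * MvPowerSeries.pderiv ℂ i (F s) = _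
      linear_combination f * h4 - F s * h6 + (Polynomial.eval (s : MvPowerSeries (Fin n) ℂ) p) * h7 -
        (k : MvPowerSeries (Fin n) ℂ) * (MvPowerSeries.pderiv ℂ i f) * h8

theorem CC_B0 {F : ℕ → MvPowerSeries (Fin n) ℂ} (hF : WW (B0 f) F) : CC f F := by
  induction hF with
  | base i => exact CC.pow f
  | zero => exact ⟨0, 0, fun s => by simp⟩
  | add _ _ h1 h2 => exact h1.add h2
  | op Q hQ _ h1 => exact CC.op Q hQ h1
  | smulS _ h1 => exact h1.smulS

/-- extension of identities to small numbers -/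
theorem ext_fam (hf : f ≠ 0) {G : ℕ → MvPowerSeries (Fin n) ℂ} (hG : CC f G) {M S : ℕ}
    {q : Polynomial (MvPowerSeries (Fin n) ℂ)}
    (h : ∀ s, S ≤ s → f ^ M * G s = f ^ s * q.eval (s : MvPowerSeries (Fin n) ℂ)) (s : ℕ) :
    f ^ M * G s = f ^ s * q.eval (s : MvPowerSeries (Fin n) ℂ) := by
  obtain ⟨D, p, hp⟩ := hG
  have hdom : IsDomain (MvPowerSeries (Fin n) ℂ) := NoZeroDivisors.to_isDomain _
  have h1 : Polynomial.C (f ^ M) * p = Polynomial.C (f ^ D) * q := by
    refine Polynomial.eq_of_infinite_eval_eq _ _ (Set.Infinite.mono (s := Set.range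
      (fun s : ℕ => ((s + S : ℕ) : MvPowerSeries (Fin n) ℂ))) ?_ ?_)
    · rintro _ ⟨t, rfl⟩
      show Polynomial.eval _ _ = Polynomial.eval _ _
      have h2 := h (t + S) (by omega)
      have h3 := hp (t + S)
      rw [Polynomial.eval_mul, Polynomial.eval_mul, Polynomial.eval_C, Polynomial.eval_C]
      apply mul_left_cancel₀ (pow_ne_zero (t + S) hf)
      linear_combination f ^ D * h2 - f ^ M * h3
    · refine Set.infinite_range_of_injective fun a b hab => ?_
      have h2 : ((a + S : ℕ) : MvPowerSeries (Fin n) ℂ) = ((b + S : ℕ) :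
        MvPowerSeries (Fin n) ℂ) := hab
      have h3 := congrArg (MvPowerSeries.constantCoeff (σ := Fin n) (R := ℂ)) h2
      rw [map_natCast, map_natCast] at h3
      have h4 : a + S = b + S := by exact_mod_cast h3
      omega
  have h2 := congrArg (Polynomial.eval (s : MvPowerSeries (Fin n) ℂ)) h1
  rw [Polynomial.eval_mul, Polynomial.eval_mul, Polynomial.eval_C, Polynomial.eval_C] at h2
  apply mul_left_cancel₀ (pow_ne_zero D hf)
  linear_combination f ^ M * hp s + f ^ s * h2

/-- `b(s - 1) ⋯ b(s - K)` -/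
noncomputable def bK (b : ℂ[X]) (K : ℕ) : ℂ[X] :=
  ∏ j ∈ Finset.range K, b.comp (X - C (((j + 1 : ℕ) : ℂ)))

theorem bK_eval (b : ℂ[X]) (K : ℕ) (s : ℂ) :
    (bK b K).eval s = ∏ j ∈ Finset.range K, b.eval (s - ((j + 1 : ℕ) : ℂ)) := by
  unfold bK
  rw [Polynomial.eval_prod]
  refine Finset.prod_congr rfl fun j _ => ?_
  rw [Polynomial.eval_comp, Polynomial.eval_sub, Polynomial.eval_X, Polynomial.eval_C]

/-- the sequences `b(s - 1) ⋯ b(s - K) f ^ (s - K)` -/
theorem exists_G (hf : f ≠ 0) {b : ℂ[X]} (hb : IsFormalBFunction f b) (K : ℕ) :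
    ∃ G : ℕ → MvPowerSeries (Fin n) ℂ, WW (B0 f) G ∧
      ∀ s : ℕ, f ^ K * G s = (bK b K).eval (s : ℂ) • f ^ s := by
  obtain ⟨P, hP⟩ := hb
  induction K with
  | zero =>
    refine ⟨_, WW.base (B := B0 f) (), fun s => ?_⟩
    rw [pow_zero, one_mul, bK, Finset.prod_range_zero, Polynomial.eval_one, one_smul]
    rfl
  | succ K ih =>
    obtain ⟨G, hG, h1⟩ := ih
    set G' : ℕ → MvPowerSeries (Fin n) ℂ := fun s => ∑ m ∈ P.support,
      ((X - C (((K + 1 : ℕ) : ℂ))) ^ m : ℂ[X]).eval (s : ℂ) •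
        (P m : Module.End ℂ (MvPowerSeries (Fin n) ℂ)) (G s) with hG'
    have hW : WW (B0 f) G' := by
      refine WW.sum _ _ fun m _ => ?_
      exact polyS (hG.op _ (P m).2) _
    refine ⟨G', hW, ?_⟩
    have key : ∀ s, K + 1 ≤ s → f ^ (K + 1) * G' s = f ^ s *
        ((bK b (K + 1)).map (MvPowerSeries.C (σ := Fin n) (R := ℂ))).eval
          (s : MvPowerSeries (Fin n) ℂ) := by
      intro s hs
      obtain ⟨t, rfl⟩ : ∃ t, s = t + (K + 1) := ⟨s - (K + 1), by omega⟩
      have h2 : G (t + (K + 1)) = (bK b K).eval ((t + (K + 1) : ℕ) : ℂ) • f ^ (t + 1) := by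
        apply mul_left_cancel₀ (pow_ne_zero K hf)
        rw [h1, mul_smul_comm, ← pow_add]
        congr 2
        ring
      have h3 : G' (t + (K + 1)) = (bK b K).eval ((t + (K + 1) : ℕ) : ℂ) •
          (b.eval (t : ℂ) • f ^ t) := by
        rw [hP t, Finsupp.sum, Finset.smul_sum, hG']
        refine Finset.sum_congr rfl fun m _ => ?_
        rw [h2, map_smul, smul_comm, Polynomial.eval_pow, Polynomial.eval_sub, Polynomial.eval_X,
          Polynomial.eval_C]
        congr 3
        push_cast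
        ring
      have h4 : (bK b (K + 1)).eval ((t + (K + 1) : ℕ) : ℂ) =
          (bK b K).eval ((t + (K + 1) : ℕ) : ℂ) * b.eval (t : ℂ) := by
        rw [bK, Finset.prod_range_succ, Polynomial.eval_mul, ← bK, Polynomial.eval_comp,
          Polynomial.eval_sub, Polynomial.eval_X, Polynomial.eval_C]
        congr 2
        push_cast
        ring
      have h5 := eval_map (n := n) (bK b (K + 1)) ((t + (K + 1) : ℕ) : ℂ) (f ^ (t + (K + 1)))
      rw [map_natCast] at h5
      rw [mul_comm (f ^ (t + (K + 1))), ← h5, h3, h4, smul_smul, mul_smul_comm, ← pow_add,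
        add_comm (K + 1) t]
    intro s
    have h2 := ext_fam hf (CC_B0 hW) key s
    have h5 := eval_map (n := n) (bK b (K + 1)) (s : ℂ) (f ^ s)
    rw [map_natCast] at h5
    rw [h2, h5, mul_comm]

/-- operators and reduced functional equations -/
theorem WW_smul {c : ℂ[X]} (hc : WW (B2 f) (fun s => c.eval (s : ℂ) • f ^ s))
    {G : ℕ → MvPowerSeries (Fin n) ℂ} (hG : WW (B0 f) G) :
    WW (B2 f) (fun s => c.eval (s : ℂ) • G s) := by
  induction hG with
  | base i => exact hc
  | zero => simpa using WW.zero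
  | add _ _ h1 h2 => simpa only [smul_add] using h1.add h2
  | op Q hQ _ h1 => simpa only [map_smul] using h1.op Q hQ
  | smulS _ h1 =>
    convert h1.smulS using 2 with s
    rw [smul_smul, smul_smul, mul_comm]

/-- removing a root -/
theorem step (hf : f ≠ 0) {b : ℂ[X]} (hb : IsFormalBFunction f b) {α : ℂ} (hα : FEv f α)
    (hbα : ∀ j : ℕ, b.eval (α - ((j + 1 : ℕ) : ℂ)) ≠ 0) {c : ℂ[X]}
    (hc : WW (B2 f) (fun s => ((X - C α) * c).eval (s : ℂ) • f ^ s)) :
    ∃ B : ℂ[X], B.eval α ≠ 0 ∧ WW (B2 f) (fun s => (c * B).eval (s : ℂ) • f ^ s) := by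
  obtain ⟨k, hk⟩ := KF_of_FEv hα
  obtain ⟨p, F, h1, h2, h3⟩ := lift_KF α k _ hk
  obtain ⟨G, hG, h4⟩ := exists_G hf hb k
  refine ⟨bK b k, ?_, ?_⟩
  · rw [bK_eval]
    exact Finset.prod_ne_zero_iff.2 fun j _ => hbα j
  obtain ⟨p2, hp2⟩ : (X - C (MvPowerSeries.C α)) ∣ (C (f ^ k) - p) := by
    rw [Polynomial.dvd_iff_isRoot, Polynomial.IsRoot.def, Polynomial.eval_sub, Polynomial.eval_C,
      h1, sub_self]
  have hG2 := polyM hG p2
  have h5 : ∀ s : ℕ, (bK b k).eval (s : ℂ) • (f ^ s - F s) = ((X - C α : ℂ[X]).eval (s : ℂ)) •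
      (p2.eval (s : MvPowerSeries (Fin n) ℂ) * G s) := by
    intro s
    apply mul_left_cancel₀ (pow_ne_zero k hf)
    have h6 := congrArg (Polynomial.eval (s : MvPowerSeries (Fin n) ℂ)) hp2
    rw [Polynomial.eval_sub, Polynomial.eval_C, Polynomial.eval_mul, Polynomial.eval_sub,
      Polynomial.eval_X, Polynomial.eval_C] at h6
    have h7 := h3 s
    have h8 := h4 s
    rw [MvPowerSeries.smul_eq_C_mul] at h8
    rw [MvPowerSeries.smul_eq_C_mul, MvPowerSeries.smul_eq_C_mul, Polynomial.eval_sub,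
      Polynomial.eval_X, Polynomial.eval_C, map_sub, map_natCast]
    linear_combination (-(MvPowerSeries.C ((bK b k).eval (s : ℂ)) : MvPowerSeries (Fin n) ℂ)) * h7 +
      (MvPowerSeries.C ((bK b k).eval (s : ℂ)) * f ^ s) * h6 -
      (((s : MvPowerSeries (Fin n) ℂ) - MvPowerSeries.C α) *
        p2.eval (s : MvPowerSeries (Fin n) ℂ)) * h8
  have h6 := (polyS h2 (c * bK b k)).add (WW_smul hc hG2)
  convert h6 using 2 with s
  have h7 := h5 s
  have h8 := congrArg (fun x => c.eval (s : ℂ) • x) h7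
  beta_reduce at h8
  rw [smul_smul, smul_smul] at h8
  rw [Polynomial.eval_mul, Polynomial.eval_mul, mul_comm ((X - C α : ℂ[X]).eval (s : ℂ)), ← h8,
    smul_sub]
  abel

/-- the polynomials of the reduced functional equations -/
noncomputable def Ib (f : MvPowerSeries (Fin n) ℂ) : Ideal ℂ[X] where
  carrier := {c | WW (B2 f) (fun s => c.eval (s : ℂ) • f ^ s)}
  add_mem' := by
    intro a b ha hb
    have h1 := WW.add ha hb
    show WW _ _
    convert h1 using 2 with s
    rw [Polynomial.eval_add, add_smul]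
  zero_mem' := by
    show WW _ _
    simpa using WW.zero
  smul_mem' := by
    intro a b hb
    have h1 := polyS hb a
    show WW _ _
    convert h1 using 2 with s
    rw [smul_eq_mul, Polynomial.eval_mul, smul_smul]

/-- **The functional equation with a parameter.** -/
theorem exists_c (hf0 : f ≠ 0) (hf : MvPowerSeries.constantCoeff f = 0) {b : ℂ[X]} (hb0 : b ≠ 0)
    (hb : IsFormalBFunction f b) {s0 : ℂ} (hre : s0.re < 0) (h : ∀ i : ℕ, FEv f (s0 - i)) :
    ∃ c : ℂ[X], c ≠ 0 ∧ WW (B2 f) (fun s => c.eval (s : ℂ) • f ^ s) ∧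
      ∀ i : ℕ, c.eval (s0 - i) ≠ 0 := by
  classical
  obtain ⟨h1, h2⟩ := reduced hf0 hf (formal_iff.1 hb)
  obtain ⟨c0, hc0⟩ := Polynomial.dvd_iff_isRoot.2 (show b.IsRoot (-1) from h1)
  rw [Polynomial.C_neg, Polynomial.C_1, sub_neg_eq_add] at hc0
  have hc0' : c0 ∈ Ib f := h2 c0 hc0
  have hc00 : c0 ≠ 0 := by
    rintro rfl
    rw [mul_zero] at hc0
    exact hb0 hc0
  obtain ⟨c, hc⟩ := (IsPrincipalIdealRing.principal (Ib f)).principal
  have hcI : c ∈ Ib f := by
    rw [hc]
    exact Submodule.mem_span_singleton_self c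
  have hcd : ∀ q ∈ Ib f, c ∣ q := by
    intro q hq
    rw [hc] at hq
    exact Ideal.mem_span_singleton.1 hq
  have hcne : c ≠ 0 := by
    rintro rfl
    exact hc00 (zero_dvd_iff.1 (hcd c0 hc0'))
  refine ⟨c, hcne, hcI, ?_⟩
  by_contra hne
  push Not at hne
  have hfin : {i : ℕ | c.eval (s0 - i) = 0}.Finite := by
    have h3 : (c.roots.toFinset : Set ℂ).Finite := Finset.finite_toSet _
    refine Set.Finite.subset (h3.preimage (f := fun i : ℕ => s0 - (i : ℂ)) ?_) ?_
    · intro a _ a' _ hab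
      have h4 : s0 - (a : ℂ) = s0 - (a' : ℂ) := hab
      have h5 : (a : ℂ) = a' := by linear_combination -h4
      exact_mod_cast h5
    · intro i hi
      show s0 - (i : ℂ) ∈ (c.roots.toFinset : Set ℂ)
      rw [Finset.mem_coe, Multiset.mem_toFinset, Polynomial.mem_roots hcne]
      exact hi
  obtain ⟨i1, hi1⟩ := hne
  obtain ⟨i0, hi0, hmax⟩ := hfin.toFinset.exists_max_image id
    ⟨i1, by rw [Set.Finite.mem_toFinset]; exact hi1⟩
  rw [Set.Finite.mem_toFinset] at hi0
  have hi0' : c.eval (s0 - i0) = 0 := hi0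
  have hmax' : ∀ j : ℕ, c.eval (s0 - ((i0 + j + 1 : ℕ) : ℂ)) ≠ 0 := by
    intro j hj
    have h3 := hmax (i0 + j + 1) (by rw [Set.Finite.mem_toFinset]; exact hj)
    simp only [id] at h3
    omega
  set α := s0 - (i0 : ℂ) with hα
  have hαre : α.re < 0 := by
    rw [hα, Complex.sub_re, Complex.natCast_re]
    have : (0 : ℝ) ≤ i0 := Nat.cast_nonneg i0
    linarith
  obtain ⟨c1, hc1⟩ := Polynomial.dvd_iff_isRoot.2 (show c.IsRoot α from hi0')
  have hb' : IsFormalBFunction f ((X + 1) * c) := formal_iff.2 (unreduced hcI)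
  obtain ⟨B, hB, hcB⟩ := step hf0 hb' (h i0) (α := α) (fun j => by
    rw [Polynomial.eval_mul, Polynomial.eval_add, Polynomial.eval_X, Polynomial.eval_one]
    refine mul_ne_zero ?_ ?_
    · intro h3
      have h4 : α = (j : ℂ) := by
        push_cast at h3
        linear_combination h3
      rw [h4, Complex.natCast_re] at hαre
      exact absurd hαre (not_lt.2 (Nat.cast_nonneg j))
    · have h3 : α - ((j + 1 : ℕ) : ℂ) = s0 - ((i0 + j + 1 : ℕ) : ℂ) := by
        rw [hα]
        push_cast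
        ring
      rw [h3]
      exact hmax' j) (c := c1) (by rw [← hc1]; exact hcI)
  obtain ⟨q, hq⟩ := hcd _ hcB
  have hc1ne : c1 ≠ 0 := by
    rintro rfl
    rw [mul_zero] at hc1
    exact hcne hc1
  have h3 : B = (X - C α) * q := by
    apply mul_left_cancel₀ hc1ne
    rw [hq, hc1]
    ring
  apply hB
  rw [h3, Polynomial.eval_mul, Polynomial.eval_sub, Polynomial.eval_X, Polynomial.eval_C, sub_self,
    zero_mul]

end Pool.Agent.J4H50.TW
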