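import Pool.Agent.J4H50.TW.B
import Pool.Agent.Y229.PS.Weak
import Pool.Agent.W574.SM.Reg
import Pool.Agent.N103.V.GoodA

set_option autoImplicit false
set_option linter.unusedSectionVars false
set_option linter.unusedVariables false

/-! # The zeta functions of stably nondegenerate germs -/

namespace Pool.Agent.J4H50.TW

open Pool.Agent.J4H50.TF
open Pool.Agent.Y229.PS (DD IsFormalBFunction WW B2 StabNondegP Becomes reduced unreduced
  formal_iff red_stab coordB local_of_formal formal_of_unit)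
open Pool.Agent.Y229.GL (topZetaTwistedLocal tw_reg)
open Pool.Agent.Y229.RE (unstab shiftZ reg_shift sep_stab)
open Pool.Agent.H628R4.TZ Pool.Agent.W425.SM
open Pool.Agent.N103.V (X1_ne X1_mem)
open Polynomial

/-- two notions of regularity -/
theorem reg_of {s : ℂ} {Z : RatFunc ℂ} (h : Pool.Agent.Y229.CF.Reg s Z) :
    Z ∈ Pool.Agent.W574.SM.Reg s := by
  obtain ⟨Q, P, h1, h2⟩ := h
  refine ⟨P, Q, h1, ?_⟩
  have h3 : algebraMap ℂ[X] (RatFunc ℂ) Q ≠ 0 := by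
    apply RatFunc.algebraMap_ne_zero
    rintro rfl
    rw [eval_zero] at h1
    exact h1 rfl
  rw [eq_div_iff h3, mul_comm]
  exact h2

variable {N k r : ℕ}

/-- regularity for the germ `f + ∑ y_i z_i` -/
theorem reg_stabK {f : MvPowerSeries (Fin N) ℂ} (hf0 : f ≠ 0)
    (hf : MvPowerSeries.constantCoeff f = 0) {b : ℂ[X]} (hb0 : b ≠ 0)
    (hb : IsFormalBFunction f b) (hk : 1 ≤ k) (hr : 1 ≤ r)
    {v : Fin r → Fin (N + (k + k)) → ℕ} (hv : StabNondegP f k v)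
    {R : SmoothFan (N + (k + k))} (hR : Principal v R) {e : ℕ} (he : 1 ≤ e) {s0 : ℂ}
    (hre : s0.re < 0) (hs : ∀ i : ℕ, FEv f (s0 - i)) :
    Pool.Agent.Y229.CF.Reg (s0 - k) (topZetaTwistedLocal v R e) := by
  obtain ⟨c, hc0, hc, hci⟩ := exists_c hf0 hf hb0 hb hre hs
  obtain ⟨hv1, hv0, a, hnd, φ, u, hφ, hφ0, hu, h3⟩ := hv
  have hloc : Pool.Agent.H628R4.TP.IsLocalBFunction (sparse v a) ((Polynomial.X + 1) *
        c.comp (Polynomial.X + Polynomial.C (k : ℂ))) := by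
    obtain ⟨u, rfl⟩ := hu
    refine local_of_formal (formal_of_unit (Units.inv_mul u) ?_)
    rw [← h3]
    exact coordB hφ hφ0 (formal_iff.2 (unreduced (red_stab sep_stab f c hc)))
  refine tw_reg hr v a hv1 hv0 hnd R hR _ ?_ hloc e he _ fun i => ?_
  · refine mul_ne_zero ?_ ?_
    · intro h0
      have := congrArg (Polynomial.eval 0) h0
      simp at this
    · intro h0
      apply hc0
      have := congrArg (fun q : ℂ[X] => q.comp (X - C (k : ℂ))) h0
      simpa [Polynomial.comp_assoc] using this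
  · rw [eval_mul, eval_comp, eval_add, eval_add, eval_X, eval_C, eval_one]
    refine mul_ne_zero ?_ ?_
    · intro h0
      have h2 : s0 = (k : ℂ) + i - 1 := by linear_combination h0
      have h5 : s0.re = (k : ℝ) + i - 1 := by rw [h2]; simp
      have h6 : (1 : ℝ) ≤ k := by exact_mod_cast hk
      have h7 : (0 : ℝ) ≤ i := Nat.cast_nonneg i
      linarith
    · have h7 : s0 - (k : ℂ) - (i : ℂ) + (k : ℂ) = s0 - i := by ring
      rw [h7]
      exact hci i

theorem ne_k {s0 : ℂ} (hre : s0.re < 0) : s0 ≠ k := by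
  rintro rfl
  rw [Complex.natCast_re] at hre
  exact absurd hre (not_lt.2 (Nat.cast_nonneg k))

/-- `e ≥ 2` -/
theorem stab_high {f : MvPowerSeries (Fin N) ℂ} (hf0 : f ≠ 0)
    (hf : MvPowerSeries.constantCoeff f = 0) {b : ℂ[X]} (hb0 : b ≠ 0)
    (hb : IsFormalBFunction f b) (hk : 1 ≤ k) (hr : 1 ≤ r)
    {v : Fin r → Fin (N + (k + k)) → ℕ} (hv : StabNondegP f k v)
    {R : SmoothFan (N + (k + k))} (hR : Principal v R) {e : ℕ} (he : 2 ≤ e) {s0 : ℂ}
    (hre : s0.re < 0) (hs : ∀ i : ℕ, FEv f (s0 - i)) :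
    unstab k e (topZetaTwistedLocal v R e) ∈ Pool.Agent.W574.SM.Reg s0 := by
  have h1 := reg_shift (reg_stabK hf0 hf hb0 hb hk hr hv hR (e := e) (by omega) hre hs)
  rw [unstab, if_neg (by omega)]
  exact reg_of h1

/-- `e = 1` -/
theorem stab_low {f : MvPowerSeries (Fin N) ℂ} (hf0 : f ≠ 0)
    (hf : MvPowerSeries.constantCoeff f = 0) {b : ℂ[X]} (hb0 : b ≠ 0)
    (hb : IsFormalBFunction f b) (hk : 1 ≤ k) (hr : 1 ≤ r)
    {v : Fin r → Fin (N + (k + k)) → ℕ} (hv : StabNondegP f k v)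
    {R : SmoothFan (N + (k + k))} (hR : Principal v R) {s0 : ℂ}
    (hre : s0.re < 0) (hs : ∀ i : ℕ, FEv f (s0 - i)) :
    (RatFunc.X + 1) * unstab k 1 (topZetaTwistedLocal v R 1) ∈ Pool.Agent.W574.SM.Reg s0 := by
  have h1 := reg_of (reg_shift (reg_stabK hf0 hf hb0 hb hk hr hv hR (e := 1) le_rfl hre hs))
  set Z := shiftZ k (topZetaTwistedLocal v R 1) with hZ
  have hXk : (RatFunc.X - RatFunc.C (k : ℂ) : RatFunc ℂ) =
      algebraMap ℂ[X] (RatFunc ℂ) (X - C (k : ℂ)) := by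
    rw [map_sub, RatFunc.algebraMap_X, RatFunc.algebraMap_C]
  have hXk0 : (RatFunc.X - RatFunc.C (k : ℂ) : RatFunc ℂ) ≠ 0 := by
    rw [hXk]
    apply RatFunc.algebraMap_ne_zero
    exact X_sub_C_ne_zero _
  have e1 : (RatFunc.X + 1) * unstab k 1 (topZetaTwistedLocal v R 1) = (RatFunc.X + 1) -
      (1 - Z) * (RatFunc.X * (RatFunc.X - RatFunc.C (k : ℂ) + 1)) *
        (RatFunc.X - RatFunc.C (k : ℂ))⁻¹ := by
    rw [unstab, if_pos rfl, ← hZ]
    have := X1_ne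
    field_simp
  rw [e1]
  have hal : ∀ P : ℂ[X], algebraMap ℂ[X] (RatFunc ℂ) P ∈ Pool.Agent.W574.SM.Reg s0 := fun P =>
    ⟨P, 1, by simp, by simp⟩
  have hinv : (RatFunc.X - RatFunc.C (k : ℂ) : RatFunc ℂ)⁻¹ ∈ Pool.Agent.W574.SM.Reg s0 := by
    refine ⟨1, X - C (k : ℂ), ?_, ?_⟩
    · rw [eval_sub, eval_X, eval_C]
      exact sub_ne_zero.2 (ne_k hre)
    · rw [hXk, map_one, one_div]
  have hX : (RatFunc.X * (RatFunc.X - RatFunc.C (k : ℂ) + 1) : RatFunc ℂ) ∈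
      Pool.Agent.W574.SM.Reg s0 := by
    have e2 : (RatFunc.X * (RatFunc.X - RatFunc.C (k : ℂ) + 1) : RatFunc ℂ) =
        algebraMap ℂ[X] (RatFunc ℂ) (X * (X - C (k : ℂ) + 1)) := by
      rw [map_mul, map_add, map_sub, map_one, RatFunc.algebraMap_X, RatFunc.algebraMap_C]
    rw [e2]
    exact hal _
  exact (Pool.Agent.W574.SM.Reg s0).sub_mem (X1_mem s0)
    ((Pool.Agent.W574.SM.Reg s0).mul_mem ((Pool.Agent.W574.SM.Reg s0).mul_mem
      ((Pool.Agent.W574.SM.Reg s0).sub_mem (Pool.Agent.W574.SM.Reg s0).one_mem h1) hX) hinv)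

end Pool.Agent.J4H50.TW
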