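import Pool.Agent.J4H50.TW.Defs
import Pool.Agent.J4H50.TW.C
import Pool.Agent.J4H50.TF.Fin

set_option autoImplicit false
set_option linter.unusedSectionVars false
set_option linter.unusedVariables false
set_option linter.unusedSimpArgs false

/-! # The properties of the zeta functions, weak form -/

namespace Pool.Agent.J4H50.TW

open Pool.Agent.W574.SM Pool.Agent.N103 Pool.Agent.N103.V Pool.Agent.Y229
open Pool.Agent.J4H50.NI (KI KI_F KI_D KI_mul KI_pow KI_SS KI_ind)
open Pool.Agent.J4H50.IG (mI)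
open Pool.Agent.J4H50.TT Pool.Agent.J4H50.TF
open Pool.Agent.Y229.PS (IsFormalBFunction)

section Pow

variable {σ : Type}

theorem KI_power2 (t : ℂ) (F : MvPolynomial σ ℂ) {k r : ℕ} (hr : 1 ≤ r) (hrk : r < k) (j : ℕ) :
    ∀ q ∈ KI (t - 1) (F ^ k) j, q ∈ KI (k * t - r) F (k * (j + 1) - r) := by
  obtain ⟨m, rfl⟩ : ∃ m, k = r + m + 1 := ⟨k - r - 1, by omega⟩
  obtain ⟨r, rfl⟩ : ∃ r', r = r' + 1 := ⟨r - 1, by omega⟩
  set K : ℕ := r + 1 + m + 1 with hK
  set s : ℂ := (K : ℂ) * t - ((r + 1 : ℕ) : ℂ) with hs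
  have hKj : ∀ j : ℕ, K * (j + 1) - (r + 1) = K * j + (m + 1) := by
    intro j
    rw [Nat.mul_succ]
    omega
  rw [hKj]
  refine KI_ind _ (fun j q => q ∈ KI s F (K * j + (m + 1))) ?_ ?_ (fun i => ?_)
    (fun k a b ha hb => ?_) (fun k a q hq => ?_) (fun j q _ hq => ?_) (fun j i q _ hq => ?_) j
  · exact Ideal.zero_mem _
  · have h1 := KI_pow s (KI_F s F) (m + 1)
    have e : F ^ K = F ^ r * (F ^ (m + 1) * F) := by
      rw [hK, ← pow_succ, ← pow_add]
      congr 1
      omega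
    rw [e]
    exact Ideal.mul_mem_left _ _ h1
  · have h1 := KI_pow s (KI_D s F i) (m + 1)
    have e : MvPolynomial.pderiv i (F ^ K) = ((K : MvPolynomial σ ℂ) * F ^ r) *
        (F ^ (m + 1) * MvPolynomial.pderiv i F) := by
      rw [Derivation.leibniz_pow, smul_eq_mul, nsmul_eq_mul]
      have e1 : K - 1 = r + (m + 1) := by omega
      rw [e1, pow_add]
      ring
    rw [e]
    exact Ideal.mul_mem_left _ _ h1
  · exact Ideal.add_mem _ ha hb
  · exact Ideal.mul_mem_left _ _ hq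
  · have h1 := KI_pow s hq K
    have e : K * j + (m + 1) + K = K * (j + 1) + (m + 1) := by ring
    rwa [e] at h1
  · have h1 := KI_pow s (KI_SS s i hq) (K - 1)
    have e : K * j + (m + 1) + 1 + (K - 1) = K * (j + 1) + (m + 1) := by
      rw [Nat.mul_succ]
      omega
    rw [e] at h1
    have e2 : (MvPolynomial.C (s - ((K * j + (m + 1) : ℕ) : ℂ)) : MvPolynomial σ ℂ) =
        MvPolynomial.C (t - 1 - (j : ℂ)) * (K : MvPolynomial σ ℂ) := by
      rw [← map_natCast (MvPolynomial.C : ℂ →+* MvPolynomial σ ℂ) K, ← MvPolynomial.C_mul]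
      congr 1
      rw [hs, hK]
      push_cast
      ring
    have e3 : F ^ K = F ^ (K - 1) * F := by
      rw [← pow_succ]
      congr 1
    have e4 : Pool.Agent.J4H50.NI.SS (t - 1) (F ^ K) j i q =
        F ^ (K - 1) * Pool.Agent.J4H50.NI.SS s F (K * j + (m + 1)) i q := by
      unfold Pool.Agent.J4H50.NI.SS
      rw [e2, Derivation.leibniz_pow, smul_eq_mul, nsmul_eq_mul, e3]
      ring
    rw [e4]
    exact h1

variable [Finite σ]

/-- powers and shifts -/
theorem FEv_power2 {f : MvPowerSeries σ ℂ} {k r : ℕ} (hr : 1 ≤ r) (hrk : r < k) {t : ℂ}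
    (h : FEv (f ^ k) (t - 1)) : FEv f (k * t - r) := by
  obtain ⟨j, hj⟩ := h
  have hK : k * (j + 1) - r = k * j + (k - r) := by
    rw [Nat.mul_succ]
    omega
  have hKj : j ≤ k * j := Nat.le_mul_of_pos_left j (by omega)
  refine ⟨k * (j + 1) - r, fun n => ?_⟩
  set K := k * (j + 1) - r with hKdef
  set F := tr (n + K + 1) f with hF
  have h1 : (F ^ k) ^ j ∈ KI (t - 1) (F ^ k) j ⊔ mI σ ℂ ^ n := by
    refine FEv_to (hj n) _ ?_
    refine TF.mem_trans (Q := tr (n + K + 1) (f ^ k)) ?_ (tr_tr (by omega) _)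
    exact IG.pow_le (by omega) (tr_pow (n + K + 1) k f)
  obtain ⟨u, hu, v, hv, huv⟩ := Submodule.mem_sup.1 h1
  have hu' := KI_power2 t F hr hrk j u hu
  have e : F ^ K = F ^ (k - r) * u + F ^ (k - r) * v := by
    rw [← mul_add, huv, ← pow_mul, ← pow_add, hK]
    congr 1
    omega
  rw [e]
  exact Submodule.add_mem_sup (Ideal.mul_mem_left _ _ hu') (Ideal.mul_mem_left _ _ hv)

/-- functional equations at all `s - i` -/
def WF (f : MvPowerSeries σ ℂ) (s : ℂ) : Prop := ∀ i : ℕ, FEv f (s - i)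

theorem WF_power {f : MvPowerSeries σ ℂ} (hf : f ≠ 0) {k : ℕ} (hk : 1 ≤ k) {s : ℂ}
    (h : WF (f ^ k) s) : WF f (k * s) := by
  intro i
  set q := i / k with hq
  set r := i % k with hr
  have hi : i = k * q + r := (Nat.div_add_mod i k).symm
  have hrk : r < k := Nat.mod_lt _ (by omega)
  rcases Nat.eq_zero_or_pos r with h0 | h0
  · have h1 := FEv_power hf hk (h q)
    have e : (k : ℂ) * s - (i : ℂ) = k * (s - q) := by
      rw [hi, h0]
      push_cast
      ring
    rw [e]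
    exact h1
  · have h1 := FEv_power2 (t := s - q) h0 hrk (f := f) (by
      have h2 := h (q + 1)
      have e : s - (q : ℂ) - 1 = s - ((q + 1 : ℕ) : ℂ) := by
        push_cast
        ring
      rw [e]
      exact h2)
    have e : (k : ℂ) * s - (i : ℂ) = k * (s - q) - r := by
      rw [hi]
      push_cast
      ring
    rw [e]
    exact h1

end Pow

/-! ### The properties -/

/-- the properties of the zeta functions -/
structure GoodW {σ : Type} [Finite σ] (f : MvPowerSeries σ ℂ) (Z : ℕ → RatFunc ℂ) : Prop where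
  ne : f ≠ 0
  zero : MvPowerSeries.constantCoeff f = 0
  re : ∀ e, 1 ≤ e → ∀ s : ℂ, 0 ≤ s.re → Z e ∈ Reg s
  one : ∃ r ∈ Reg 0, Z 1 = 1 + RatFunc.X * r
  high : ∀ e, 2 ≤ e → ∀ s : ℂ, s.re < 0 → WF f s → Z e ∈ Reg s
  low : ∀ s : ℂ, s.re < 0 → WF f s → (RatFunc.X + 1) * Z 1 ∈ Reg s

section Prop1

variable {σ : Type} [Finite σ] {f : MvPowerSeries σ ℂ} {Z : ℕ → RatFunc ℂ}

theorem WF.zero {s : ℂ} (h : WF f s) : FEv f s := by
  have h1 := h 0
  rwa [Nat.cast_zero, sub_zero] at h1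

theorem goodW_of_goodF (hG : GoodF f Z) : GoodW f Z where
  ne := hG.ne
  zero := hG.zero
  re := hG.re
  one := hG.one
  high := fun e he s _ h => hG.high e he s h.zero
  low := fun s _ h => hG.low s h.zero

theorem GoodW.all (hG : GoodW f Z) {e : ℕ} (he : 1 ≤ e) {s : ℂ} (hre : s.re < 0) (hE : WF f s)
    (hs : s ≠ -1) : Z e ∈ Reg s := by
  by_cases h : e = 1
  · rw [h]
    exact of_X1 hs (hG.low s hre hE)
  · exact hG.high e (by omega) s hre hE

theorem GoodW.WW_re (h : GoodW f Z) {c : ℕ} (hc : 1 ≤ c) {s : ℂ} (hs : WW Z c ∉ Reg s) :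
    s.re < 0 := by
  by_contra hre
  push Not at hre
  apply hs
  by_cases h1 : c = 1
  · subst h1
    rw [WW_one]
    by_cases h0 : s = 0
    · subst h0
      obtain ⟨r, hr, e⟩ := h.one
      have : ((RatFunc.X + 1) * Z 1 - 1) / RatFunc.X = 1 + (RatFunc.X + 1) * r := by
        rw [e, div_eq_iff RatFunc.X_ne_zero]
        ring
      rw [this]
      exact (Reg 0).add_mem (Reg 0).one_mem ((Reg 0).mul_mem (X1_mem 0) hr)
    · rw [div_eq_mul_inv]
      exact (Reg s).mul_mem ((Reg s).sub_mem ((Reg s).mul_mem (X1_mem s) (h.re 1 le_rfl s hre))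
        (Reg s).one_mem) (X_inv_reg s h0)
  · rw [WW_high Z (by omega)]
    exact h.re c hc s hre

theorem GoodW.WW_pole (h : GoodW f Z) {c : ℕ} (hc : 1 ≤ c) {s : ℂ} (hs : WW Z c ∉ Reg s) :
    ¬ WF f s := by
  intro hF
  have hre := h.WW_re hc hs
  by_cases h1 : c = 1
  · subst h1
    refine hs ?_
    rw [WW_one, div_eq_mul_inv]
    refine (Reg s).mul_mem ((Reg s).sub_mem (h.low s hre hF) (Reg s).one_mem) (X_inv_reg s ?_)
    rintro rfl
    rw [Complex.zero_re] at hre
    exact lt_irrefl _ hre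
  · rw [WW_high Z (by omega)] at hs
    exact hs (h.high c (by omega) s hre hF)

theorem kre {k : ℕ} (hk : 1 ≤ k) {s : ℂ} (hs : s.re < 0) : ((k : ℂ) * s).re < 0 := by
  rw [Complex.mul_re, Complex.natCast_re, Complex.natCast_im, zero_mul, sub_zero]
  have : (0 : ℝ) < k := by exact_mod_cast hk
  nlinarith

/-- powers -/
theorem goodW_pow {k : ℕ} (hk : 1 ≤ k) (hG : GoodW f Z) :
    GoodW (f ^ k) (fun e => sb k 0 (Z (e / Nat.gcd e k))) where
  ne := pow_ne_zero _ hG.ne
  zero := by rw [map_pow, hG.zero, zero_pow (by omega)]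
  re := by
    intro e he s hs
    refine sb_mem _ (hG.re _ ?_ _ ?_)
    · exact Nat.div_pos (Nat.le_of_dvd (by omega) (Nat.gcd_dvd_left e k))
        (Nat.gcd_pos_of_pos_left _ (by omega))
    · rw [add_zero, Complex.mul_re, Complex.natCast_re, Complex.natCast_im, zero_mul, sub_zero]
      exact mul_nonneg (Nat.cast_nonneg k) hs
  one := by
    have hkc : (k : ℂ) ≠ 0 := Nat.cast_ne_zero.2 (by omega)
    obtain ⟨r, hr, e⟩ := hG.one
    refine ⟨(k : RatFunc ℂ) * sb k 0 r, (Reg 0).mul_mem (natCast_mem _ _)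
      (sb_mem _ (by rw [mul_zero, add_zero]; exact hr)), ?_⟩
    have h1 := sb_al hkc 0 Polynomial.X
    rw [RatFunc.algebraMap_X, Polynomial.X_comp, map_add, map_mul, RatFunc.algebraMap_X,
      RatFunc.algebraMap_C, RatFunc.algebraMap_C, map_zero, add_zero, map_natCast] at h1
    simp only [Nat.gcd_one_left, Nat.div_one]
    rw [e, sb_add hkc, sb_mul hkc, sb_one hkc, h1]
    ring
  high := by
    intro e he s hre hE
    have hkc : (k : ℂ) ≠ 0 := Nat.cast_ne_zero.2 (by omega)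
    have h1 : 1 ≤ e / Nat.gcd e k := Nat.div_pos (Nat.le_of_dvd (by omega) (Nat.gcd_dvd_left e k))
        (Nat.gcd_pos_of_pos_left _ (by omega))
    have hE' := WF_power hG.ne hk hE
    refine sb_mem _ ?_
    rw [add_zero]
    by_cases h2 : 2 ≤ e / Nat.gcd e k
    · exact hG.high _ h2 _ (kre hk hre) hE'
    · by_cases h3 : (k : ℂ) * s = -1
      · exfalso
        have h4 : e / Nat.gcd e k = 1 := by omega
        have h5 : Nat.gcd e k = e := by
          have h6 := Nat.div_mul_cancel (Nat.gcd_dvd_left e k)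
          rw [h4, one_mul] at h6
          exact h6
        have h6 : e ∣ k := h5 ▸ Nat.gcd_dvd_right e k
        have h7 := Nat.le_of_dvd (by omega) h6
        refine not_FEv_power hG.ne hG.zero (k := k) (by omega) ?_
        rw [← h3, mul_div_cancel_left₀ _ hkc]
        exact hE.zero
      · exact hG.all h1 (kre hk hre) hE' h3
  low := by
    intro s hre hE
    have hkc : (k : ℂ) ≠ 0 := Nat.cast_ne_zero.2 (by omega)
    simp only [Nat.gcd_one_left, Nat.div_one]
    have hE' := WF_power hG.ne hk hE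
    by_cases hk1 : k = 1
    · subst hk1
      have h2 := hG.low _ (kre hk hre) hE'
      have h3 : ((1 : ℕ) : ℂ) * s = ((1 : ℕ) : ℂ) * s + 0 := by rw [add_zero]
      rw [h3] at h2
      have h4 := sb_mem _ h2
      have h1 := sb_al hkc 0 (Polynomial.X + 1)
      rw [X1_eq] at h1
      rw [sb_mul hkc, h1] at h4
      simpa using h4
    · refine (Reg s).mul_mem (X1_mem s) (sb_mem _ ?_)
      rw [add_zero]
      refine hG.all le_rfl (kre hk hre) hE' fun h3 => ?_
      refine not_FEv_power hG.ne hG.zero (k := k) (by omega) ?_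
      rw [← h3, mul_div_cancel_left₀ _ hkc]
      exact hE.zero

end Prop1

section Two

variable {σ τ : Type} [Finite σ] [Finite τ] {f : MvPowerSeries σ ℂ} {g : MvPowerSeries τ ℂ}
  {Z Z' : ℕ → RatFunc ℂ} {M : ℕ} {w w' : ℕ → (ℂ × ℕ →₀ ℂ)}

theorem WF_sum {s1 s2 : ℂ} (h1 : ¬ WF f s1) (h2 : ¬ WF g s2) (hre : (s1 + s2).re < 0) :
    ¬ WF (MvPowerSeries.rename Sum.inl f + MvPowerSeries.rename Sum.inr g :
      MvPowerSeries (σ ⊕ τ) ℂ) (s1 + s2) := by
  intro h
  unfold WF at h1 h2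
  push Not at h1 h2
  obtain ⟨i, hi⟩ := h1
  obtain ⟨j, hj⟩ := h2
  have h3 := h (i + j)
  have e : s1 + s2 - ((i + j : ℕ) : ℂ) = (s1 - i) + (s2 - j) := by
    push_cast
    ring
  rw [e] at h3
  refine not_FEv_sum hi hj (fun m hm => ?_) h3
  have h4 := congrArg Complex.re hm
  rw [Complex.natCast_re] at h4
  simp only [Complex.add_re, Complex.sub_re, Complex.natCast_re] at h4 hre
  have h5 : (0 : ℝ) ≤ m := Nat.cast_nonneg m
  have h6 : (0 : ℝ) ≤ i := Nat.cast_nonneg i
  have h7 : (0 : ℝ) ≤ j := Nat.cast_nonneg j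
  linarith

theorem tsWW_pole (hF : GoodW f Z) (hG : GoodW g Z') (hw : ∀ c, 1 ≤ c → WW Z c = lap (w c))
    (hw' : ∀ c, 1 ≤ c → WW Z' c = lap (w' c)) {e : ℕ} {s : ℂ} (hs : tsW M w w' e ∉ Reg s) :
    s.re < 0 ∧ ¬ WF (MvPowerSeries.rename Sum.inl f + MvPowerSeries.rename Sum.inr g :
      MvPowerSeries (σ ⊕ τ) ℂ) s := by
  have h1 : ∃ c c', 1 ≤ c ∧ 1 ≤ c' ∧ ∃ p ∈ (w c).support, ∃ q ∈ (w' c').support,
      s = -p.1 + -q.1 := by
    by_contra hne
    push Not at hne
    exact hs (tsW_mem fun c c' hc hc' p hp q hq => hne c c' hc hc' p hp q hq)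
  obtain ⟨c, c', hc, hc', x, hx, y, hy, rfl⟩ := h1
  have hx1 : WW Z c ∉ Reg (-x.1) := by
    rw [hw c hc]
    exact lap_pole _ _ hx
  have hy1 : WW Z' c' ∉ Reg (-y.1) := by
    rw [hw' c' hc']
    exact lap_pole _ _ hy
  have hre : (-x.1 + -y.1).re < 0 := by
    rw [Complex.add_re]
    have := hF.WW_re hc hx1
    have := hG.WW_re hc' hy1
    linarith
  exact ⟨hre, WF_sum (hF.WW_pole hc hx1) (hG.WW_pole hc' hy1) hre⟩

theorem goodW_sum (hF : GoodW f Z) (hG : GoodW g Z') (hw : ∀ c, 1 ≤ c → WW Z c = lap (w c))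
    (hw' : ∀ c, 1 ≤ c → WW Z' c = lap (w' c)) :
    GoodW (MvPowerSeries.rename Sum.inl f + MvPowerSeries.rename Sum.inr g :
      MvPowerSeries (σ ⊕ τ) ℂ) (tsZ M w w') := by
  have hreg : ∀ e, ∀ s : ℂ, 0 ≤ s.re → tsW M w w' e ∈ Reg s := by
    intro e s hs
    by_contra h
    exact absurd (tsWW_pole hF hG hw hw' h).1 (not_lt.2 hs)
  refine ⟨sumF_ne hF.ne hF.zero, ?_, ?_, ?_, ?_, ?_⟩
  · rw [map_add, MvPowerSeries.constantCoeff_rename, MvPowerSeries.constantCoeff_rename, hF.zero,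
      hG.zero, add_zero]
  · intro e he s hs
    by_cases h1 : e = 1
    · subst h1
      refine of_X1 (re_ne hs) ?_
      rw [X1_tsZ]
      exact (Reg s).add_mem (Reg s).one_mem ((Reg s).mul_mem (X_mem s) (hreg 1 s hs))
    · rw [tsZ, if_neg h1]
      exact hreg e s hs
  · refine ⟨(tsW M w w' 1 - 1) * (1 / (RatFunc.X + 1)), (Reg 0).mul_mem ((Reg 0).sub_mem
      (hreg 1 0 (le_of_eq Complex.zero_re.symm)) (Reg 0).one_mem) (X1_inv (by norm_num)), ?_⟩
    rw [tsZ, if_pos rfl]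
    have := X1_ne
    field_simp
    ring
  · intro e he s _ hs
    rw [tsZ, if_neg (by omega)]
    by_contra h
    exact (tsWW_pole hF hG hw hw' h).2 hs
  · intro s _ hs
    rw [X1_tsZ]
    refine (Reg s).add_mem (Reg s).one_mem ((Reg s).mul_mem (X_mem s) ?_)
    by_contra h
    exact (tsWW_pole hF hG hw hw' h).2 hs

theorem goodW_mul (hF : GoodW f Z) (hG : GoodW g Z') :
    GoodW (MvPowerSeries.rename Sum.inl f * MvPowerSeries.rename Sum.inr g :
      MvPowerSeries (σ ⊕ τ) ℂ) (fun e => Z e * Z' e) := by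
  have hl : ∀ s : ℂ, FEv (MvPowerSeries.rename Sum.inl f * MvPowerSeries.rename Sum.inr g :
      MvPowerSeries (σ ⊕ τ) ℂ) s → FEv f s := by
    intro s h
    by_contra h'
    exact not_FEv_mul hG.ne h' h
  have hr : ∀ s : ℂ, FEv (MvPowerSeries.rename Sum.inl f * MvPowerSeries.rename Sum.inr g :
      MvPowerSeries (σ ⊕ τ) ℂ) s → FEv g s := by
    intro s h
    by_contra h'
    refine not_FEv_mul (g := f) hF.ne h' ?_
    set ε : τ ⊕ σ ≃ σ ⊕ τ := Equiv.sumComm τ σ
    refine FEv_ren ε ?_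
    have e1 : MvPowerSeries.rename ε (MvPowerSeries.rename Sum.inl g * MvPowerSeries.rename Sum.inr f :
        MvPowerSeries (τ ⊕ σ) ℂ) =
        MvPowerSeries.rename Sum.inl f * MvPowerSeries.rename Sum.inr g := by
      rw [map_mul, MvPowerSeries.rename_rename, MvPowerSeries.rename_rename, mul_comm]
      rfl
    rw [e1]
    exact h
  refine ⟨mul_ne_zero (inl_ne hF.ne) (inr_ne hG.ne), ?_, ?_, ?_, ?_, ?_⟩
  · rw [map_mul, MvPowerSeries.constantCoeff_rename, hF.zero, zero_mul]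
  · exact fun e he s hs => (Reg s).mul_mem (hF.re e he s hs) (hG.re e he s hs)
  · obtain ⟨r, hr, e⟩ := hF.one
    obtain ⟨r', hr', e'⟩ := hG.one
    refine ⟨r + r' + RatFunc.X * r * r', (Reg 0).add_mem ((Reg 0).add_mem hr hr')
      ((Reg 0).mul_mem ((Reg 0).mul_mem (X_mem 0) hr) hr'), ?_⟩
    rw [e, e']
    ring
  · intro e he s hre hs
    exact (Reg s).mul_mem (hF.high e he s hre fun i => hl _ (hs i))
      (hG.high e he s hre fun i => hr _ (hs i))
  · intro s hre hs
    by_cases h0 : s = -1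
    · subst h0
      exact absurd hs.zero (not_FEv_mul_neg_one hF.ne hG.ne hF.zero hG.zero)
    · exact (Reg s).mul_mem (X1_mem s) ((Reg s).mul_mem
        (hF.all le_rfl hre (fun i => hl _ (hs i)) h0)
        (hG.all le_rfl hre (fun i => hr _ (hs i)) h0))

theorem goodW_extra (hF : GoodW f Z) :
    GoodW (MvPowerSeries.rename Sum.inl f : MvPowerSeries (σ ⊕ τ) ℂ) Z := by
  have h1 : ∀ s : ℂ, WF (MvPowerSeries.rename Sum.inl f : MvPowerSeries (σ ⊕ τ) ℂ) s →
      WF f s := by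
    intro s h i
    by_contra h'
    have h2 := not_FEv_mul (g := (1 : MvPowerSeries τ ℂ)) one_ne_zero h'
    rw [map_one, mul_one] at h2
    exact h2 (h i)
  refine ⟨inl_ne hF.ne, ?_, hF.re, hF.one, fun e he s hre hs => hF.high e he s hre (h1 s hs),
    fun s hre hs => hF.low s hre (h1 s hs)⟩
  rw [MvPowerSeries.constantCoeff_rename, hF.zero]

theorem goodW_ren (hF : GoodW f Z) (ε : σ ≃ τ) : GoodW (MvPowerSeries.rename ε f) Z := by
  refine ⟨?_, ?_, hF.re, hF.one, fun e he s hre hs => hF.high e he s hre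
    fun i => FEv_ren ε (hs i), fun s hre hs => hF.low s hre fun i => FEv_ren ε (hs i)⟩
  · intro h
    apply hF.ne
    exact MvPowerSeries.rename_injective (R := ℂ) ε.toEmbedding (by rw [map_zero]; exact h)
  · rw [MvPowerSeries.constantCoeff_rename, hF.zero]

end Two

theorem goodW_coord {σ : Type} [Fintype σ] [DecidableEq σ] {f f' : MvPowerSeries σ ℂ}
    {Z : ℕ → RatFunc ℂ} (hF : GoodW f Z) (h : ∀ n, CE f' f n) : GoodW f' Z :=
  ⟨coord_ne h hF.ne, coord_zero h hF.zero, hF.re, hF.one,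
    fun e he s hre hs => hF.high e he s hre fun i => FEv_coord h (hs i),
    fun s hre hs => hF.low s hre fun i => FEv_coord h (hs i)⟩

end Pool.Agent.J4H50.TW
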