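import Pool.Agent.J4H50.TF.Defs
import Pool.Agent.Y229.PS.Weak

set_option autoImplicit false

/-! # Thom-Sebastiani sums of stably nondegenerate germs -/

namespace Pool.Agent.J4H50.TW

open Pool.Agent.N103 Pool.Agent.N103.V Pool.Agent.Y229 Pool.Agent.J4H50.TT Pool.Agent.J4H50.TF
open Pool.Agent.Y229.PS (IsFormalBFunction StabNondegP)
open Pool.Agent.Y229.GL (topZetaTwistedLocal)
open Pool.Agent.Y229.RE (unstab)
open Pool.Agent.W425.SM (SmoothFan Principal)

/-- `TSW σ f Z`: the formal power series `f` (in the variables `σ`; for example, the germ at the origin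
of a holomorphic function) satisfies `f(0) = 0`, and the `Z e`, `e ≥ 1`, are its twisted local
topological zeta functions at the origin. The rules are

* `smooth`: `f = 0` is smooth: `Z_1 = 1 / (s + 1)` and `Z_e = 0` for `e > 1`;
* `lin`: `f = h(x) (f₀(x) + ∑ y_j f_j(x)) ^ a`, `x = (x₁, x₂)`, with polynomials `h`, `f₀`, `f_j`, and
  the zeta functions are computed by blowing up points of the plane (`PointZeta`); in particular, `f`
  may be any polynomial in two variables (every power series in two variables becomes a polynomial in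
  suitable coordinates, up to a unit);
* `swh`: `f = G₀ + g`, where the polynomial `G₀` is weighted homogeneous and has an isolated critical
  point at the origin, and all the terms of `g` have greater weight;
* `stab`: the stably nondegenerate germs: `f(x) + y_1 z_1 + ⋯ + y_k z_k` becomes, in suitable formal
  coordinates and up to a unit, a polynomial `g = ∑_j a_j X ^ (v j)` which is nondegenerate for the compact
  faces of its Newton polyhedron (`StabNondegP f k v`); `k ≥ 1` (this is no restriction, since `k`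
  can be increased: if `f` is nondegenerate, then so is `f + y_1 z_1`). The zeta functions `Z_e` of `g` are
  given by the Newton polyhedron and a smooth fan `R` (`topZetaTwistedLocal`), and those of `f` by
  `Z_e(s - k)` for `e ≥ 2` and `1 - (1 - Z_1(s - k)) s (s - k + 1) / ((s - k) (s + 1))` for `e = 1`
  (`unstab`). The hypothesis `h1` says that the poles of the zeta functions of `f` have negative real
  parts and that `Z_1(0) = 1` for `f`; this is always true. `b` is any nonzero polynomial with a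
  functional equation `b(s) f ^ s = P(s) f ^ (s + 1)`; it exists (Bernstein, Björk, Kashiwara);
* `sum`: the Thom-Sebastiani sum `f(x) + g(y)`; `M ≥ 1` is a number such that `Z_c = 0` if `c ≥ 2` does
  not divide `M`;
* `mul`: the product `f(x) g(y)`: `Z_e(f) Z_e(g)`;
* `pow`: `f ^ k`, `k ≥ 1`: `e ∣ k N` if and only if `e / gcd(e, k) ∣ N`;
* `extra`: additional variables;
* `ren`: other names of the variables;
* `coord`: `f` may be replaced by `f'`, if for every `n` there are formal coordinates `φ` and a unit `u`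
  such that `f'(φ)` and `u f` have the same terms of degree less than `n`; in particular, if
  `f'(φ) = u f`. -/
inductive TSW : (σ : Type) → MvPowerSeries σ ℂ → (ℕ → RatFunc ℂ) → Prop
  | smooth {σ : Type} [Finite σ] (f : MvPowerSeries σ ℂ) (h0 : MvPowerSeries.constantCoeff f = 0)
      (i : σ) (h1 : MvPowerSeries.coeff (Finsupp.single i 1) f ≠ 0) :
      TSW σ f (fun e => if e = 1 then 1 / (RatFunc.X + 1) else 0)
  | lin {κ : Type} [Fintype κ] [DecidableEq κ] (h : MvPolynomial (Fin 2) ℂ)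
      (f : Option κ → MvPolynomial (Fin 2) ℂ) (a : ℕ) (ha : 1 ≤ a) (hF : FF h f a ≠ 0)
      (h0 : MvPolynomial.eval 0 (FF h f a) = 0) (Z : ℕ → RatFunc ℂ)
      (hZ : ∀ e, 1 ≤ e → PointZeta (tfac e) 1 h f a 0 0 (Z e)) :
      TSW (Fin 2 ⊕ κ) (FF h f a : MvPowerSeries (Fin 2 ⊕ κ) ℂ) Z
  | swh {σ : Type} [Fintype σ] [Nonempty σ] (G0 : MvPolynomial σ ℂ) (g : MvPowerSeries σ ℂ)
      (w : σ → ℕ) (D : ℕ) (hw : ∀ i, 0 < w i) (hD : 0 < D) (hG0 : G0.IsWeightedHomogeneous w D)
      (hg : OrdF w (D + 1) g) (h0 : ∀ i, MvPolynomial.coeff (Finsupp.single i 1) G0 = 0)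
      (h1 : ∀ i, MvPowerSeries.coeff (Finsupp.single i 1) g = 0)
      (hz : ∀ z : σ → ℂ, (∀ i, MvPolynomial.eval z (MvPolynomial.pderiv i G0) = 0) → z = 0) :
      TSW σ ((G0 : MvPowerSeries σ ℂ) + g) (swZ w D)
  | stab {N k r : ℕ} (f : MvPowerSeries (Fin N) ℂ) (hf0 : f ≠ 0)
      (hf : MvPowerSeries.constantCoeff f = 0) (b : Polynomial ℂ) (hb0 : b ≠ 0)
      (hb : IsFormalBFunction f b) (hk : 1 ≤ k) (hr : 1 ≤ r)
      (v : Fin r → Fin (N + (k + k)) → ℕ) (hv : StabNondegP f k v)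
      (R : SmoothFan (N + (k + k))) (hR : Principal v R)
      (h1 : ∀ e, 1 ≤ e → ∀ s : ℂ, 0 ≤ s.re →
        (WW (fun e => unstab k e (topZetaTwistedLocal v R e)) e).denom.eval s ≠ 0) :
      TSW (Fin N) f (fun e => unstab k e (topZetaTwistedLocal v R e))
  | sum {σ τ : Type} [Finite σ] [Finite τ] (f : MvPowerSeries σ ℂ) (g : MvPowerSeries τ ℂ)
      (Z Z' : ℕ → RatFunc ℂ) (hf : TSW σ f Z) (hg : TSW τ g Z') (M : ℕ) (hM : 1 ≤ M)
      (hMZ : ∀ c, 2 ≤ c → ¬ c ∣ M → Z c = 0) (w w' : ℕ → (ℂ × ℕ →₀ ℂ))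
      (hw : ∀ c, 1 ≤ c → WW Z c = lap (w c)) (hw' : ∀ c, 1 ≤ c → WW Z' c = lap (w' c)) :
      TSW (σ ⊕ τ) (MvPowerSeries.rename Sum.inl f + MvPowerSeries.rename Sum.inr g) (tsZ M w w')
  | mul {σ τ : Type} [Finite σ] [Finite τ] (f : MvPowerSeries σ ℂ) (g : MvPowerSeries τ ℂ)
      (Z Z' : ℕ → RatFunc ℂ) (hf : TSW σ f Z) (hg : TSW τ g Z') :
      TSW (σ ⊕ τ) (MvPowerSeries.rename Sum.inl f * MvPowerSeries.rename Sum.inr g)
        (fun e => Z e * Z' e)
  | pow {σ : Type} (k : ℕ) (hk : 1 ≤ k) (f : MvPowerSeries σ ℂ) (Z : ℕ → RatFunc ℂ)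
      (hf : TSW σ f Z) : TSW σ (f ^ k) (fun e => sb k 0 (Z (e / Nat.gcd e k)))
  | extra {σ τ : Type} [Finite σ] [Finite τ] (f : MvPowerSeries σ ℂ) (Z : ℕ → RatFunc ℂ)
      (hf : TSW σ f Z) : TSW (σ ⊕ τ) (MvPowerSeries.rename Sum.inl f) Z
  | ren {σ τ : Type} [Finite σ] (ε : σ ≃ τ) (f : MvPowerSeries σ ℂ) (Z : ℕ → RatFunc ℂ)
      (hf : TSW σ f Z) : TSW τ (MvPowerSeries.rename ε f) Z
  | coord {σ : Type} [Fintype σ] [DecidableEq σ] (f f' : MvPowerSeries σ ℂ) (Z : ℕ → RatFunc ℂ)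
      (hf : TSW σ f Z) (h : ∀ n : ℕ, ∃ (φ : σ → MvPowerSeries σ ℂ) (u : MvPowerSeries σ ℂ),
        IsCo φ ∧ IsUnit u ∧ ∀ m : σ →₀ ℕ, m.degree < n →
          MvPowerSeries.coeff m (MvPowerSeries.subst φ f') = MvPowerSeries.coeff m (u * f)) :
      TSW σ f' Z

end Pool.Agent.J4H50.TW
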