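import Pool.Agent.J4H50.TW.D

set_option autoImplicit false
set_option linter.unusedSectionVars false
set_option linter.unusedVariables false
set_option linter.unusedSimpArgs false

/-! # The monodromy conjecture for the class `TSW` -/

namespace Pool.Agent.J4H50.TW

open Pool.Agent.W574.SM Pool.Agent.N103 Pool.Agent.N103.V Pool.Agent.Y229
open Pool.Agent.J4H50.TT Pool.Agent.J4H50.TF
open Pool.Agent.Y229.PS (IsFormalBFunction StabNondegP)
open Pool.Agent.Y229.GL (topZetaTwistedLocal)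
open Pool.Agent.Y229.RE (unstab)
open Pool.Agent.W425.SM (SmoothFan Principal)

/-- regular where the denominator does not vanish -/
theorem reg_of_denom {s : ℂ} {x : RatFunc ℂ} (h : x.denom.eval s ≠ 0) : x ∈ Reg s :=
  ⟨x.num, x.denom, h, (RatFunc.num_div_denom x).symm⟩

theorem re_of_WW {Z : ℕ → RatFunc ℂ}
    (h1 : ∀ e, 1 ≤ e → ∀ s : ℂ, 0 ≤ s.re → (WW Z e).denom.eval s ≠ 0) :
    (∀ e, 1 ≤ e → ∀ s : ℂ, 0 ≤ s.re → Z e ∈ Reg s) ∧ ∃ r ∈ Reg 0, Z 1 = 1 + RatFunc.X * r := by
  have h2 : (RatFunc.X + 1) * Z 1 = 1 + RatFunc.X * WW Z 1 := by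
    rw [WW_one]
    have := RatFunc.X_ne_zero (K := ℂ)
    field_simp
    ring
  constructor
  · intro e he s hs
    by_cases h : e = 1
    · subst h
      refine of_X1 (re_ne hs) ?_
      rw [h2]
      exact (Reg s).add_mem (Reg s).one_mem ((Reg s).mul_mem (X_mem s)
        (reg_of_denom (h1 1 le_rfl s hs)))
    · rw [← WW_high Z (by omega)]
      exact reg_of_denom (h1 e he s hs)
  · refine ⟨(WW Z 1 - 1) * (1 / (RatFunc.X + 1)), (Reg 0).mul_mem ((Reg 0).sub_mem
      (reg_of_denom (h1 1 le_rfl 0 (le_of_eq Complex.zero_re.symm))) (Reg 0).one_mem)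
      (X1_inv (by norm_num)), ?_⟩
    have h3 : Z 1 = (1 + RatFunc.X * WW Z 1) * (1 / (RatFunc.X + 1)) := by
      rw [← h2]
      have := X1_ne
      field_simp
    rw [h3]
    have := X1_ne
    field_simp
    ring

theorem goodW_stab {N k r : ℕ} (f : MvPowerSeries (Fin N) ℂ) (hf0 : f ≠ 0)
    (hf : MvPowerSeries.constantCoeff f = 0) (b : Polynomial ℂ) (hb0 : b ≠ 0)
    (hb : IsFormalBFunction f b) (hk : 1 ≤ k) (hr : 1 ≤ r)
    (v : Fin r → Fin (N + (k + k)) → ℕ) (hv : StabNondegP f k v)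
    (R : SmoothFan (N + (k + k))) (hR : Principal v R)
    (h1 : ∀ e, 1 ≤ e → ∀ s : ℂ, 0 ≤ s.re →
      (WW (fun e => unstab k e (topZetaTwistedLocal v R e)) e).denom.eval s ≠ 0) :
    GoodW f (fun e => unstab k e (topZetaTwistedLocal v R e)) := by
  obtain ⟨h2, h3⟩ := re_of_WW h1
  exact ⟨hf0, hf, h2, h3, fun e he s hre hs => stab_high hf0 hf hb0 hb hk hr hv hR he hre hs,
    fun s hre hs => stab_low hf0 hf hb0 hb hk hr hv hR hre hs⟩

/-- **The properties of the zeta functions of the class.** -/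
theorem tsw_good {σ : Type} {f : MvPowerSeries σ ℂ} {Z : ℕ → RatFunc ℂ}
    (h : TSW σ f Z) : ∀ [Finite σ], GoodW f Z := by
  induction h with
  | smooth f h0 i h1 =>
    intro _
    exact goodW_of_goodF (goodF_smooth f h0 i h1)
  | lin h f a ha hF h0 Z hZ =>
    intro _
    exact goodW_of_goodF (tsg_good (TSG.lin h f a ha hF h0 Z hZ))
  | swh G0 g w D hw hD hG0 hg h0 h1 hz =>
    intro _
    exact goodW_of_goodF (goodF_swh G0 g w D hw hD hG0 hg h0 h1 hz)
  | stab f hf0 hf b hb0 hb hk hr v hv R hR h1 =>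
    intro _
    exact goodW_stab f hf0 hf b hb0 hb hk hr v hv R hR h1
  | sum f g Z Z' _ _ M _ _ w w' hw hw' ihF ihG =>
    intro _
    exact goodW_sum ihF ihG hw hw'
  | mul f g Z Z' _ _ ihF ihG =>
    intro _
    exact goodW_mul ihF ihG
  | pow k hk f Z _ ih =>
    intro _
    exact goodW_pow hk ih
  | extra f Z _ ih =>
    intro _
    exact goodW_extra ih
  | ren ε f Z _ ih =>
    intro _
    exact goodW_ren ih ε
  | coord f f' Z _ h ih =>
    intro _
    exact goodW_coord ih h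

/-- **The local theorem.** -/
theorem tsw_local {N : ℕ} (f : MvPowerSeries (Fin N) ℂ) (Z : ℕ → RatFunc ℂ)
    (hZ : TSW (Fin N) f Z) (b : Polynomial ℂ) (hb : IsFormalBFunction f b) (e : ℕ) (he : 1 ≤ e)
    (s : ℂ) (hs : (Z e).denom.eval s = 0) : ∃ i : ℕ, b.eval (s - i) = 0 := by
  by_contra hne
  push Not at hne
  have hG : GoodW f Z := tsw_good hZ
  have hre : s.re < 0 := by
    by_contra h
    push Not at h
    exact Reg_denom s _ (hG.re e he s h) hs
  have hW : WF f s := fun i => FEv_of_formal hG.ne hb (hne i)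
  refine Reg_denom s _ (hG.all he hre hW ?_) hs
  rintro rfl
  have h1 := hne 0
  rw [Nat.cast_zero, sub_zero] at h1
  exact h1 (formal_root hG.ne hG.zero hb)

end Pool.Agent.J4H50.TW
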